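import Mathlib

set_option autoImplicit false

namespace Pool.Agent.H.MP_01c350_lc

open Cardinal Set FirstOrder

theorem clos {X : Type} [Nonempty X] (g : Finset X → Set X) (hg : ∀ s, (g s).Countable)
    (A : Set X) : ∃ Y, A ⊆ Y ∧ #Y ≤ max ℵ₀ #A ∧ ∀ s : Finset X, ↑s ⊆ Y → g s ⊆ Y := by
  classical
  choose f hf using fun s => countable_iff_exists_subset_range.1 (hg s)
  let L : Language := ⟨fun _ => ℕ, fun _ => Empty⟩
  let _ : L.Structure X := ⟨fun k x => f (Finset.univ.image x) k, fun r => r.elim⟩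
  refine ⟨Language.Substructure.closure L A, Language.Substructure.subset_closure, ?_,
    fun s hs x hx => ?_⟩
  · have := Language.Substructure.lift_card_closure_le (L := L) (s := A)
    simp only [lift_id] at this
    refine this.trans (max_le (le_max_left _ _) ?_)
    exact (add_le_add (le_max_right ℵ₀ _) ((mk_le_aleph0 (α := Σ _ : ℕ, ℕ)).trans
      (le_max_left _ #A))).trans_eq (add_eq_self (le_max_left _ _))
  · obtain ⟨k, rfl⟩ := hf s hx
    have := (Language.Substructure.closure L A).fun_mem (n := s.card) k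
      (fun i => s.equivFin.symm i) fun i => hs (s.equivFin.symm i).2
    have e : Finset.univ.image (fun i => (s.equivFin.symm i : X)) = s := by
      ext y
      simp only [Finset.mem_image, Finset.mem_univ, true_and]
      exact ⟨fun ⟨i, h⟩ => h ▸ (s.equivFin.symm i).2, fun h => ⟨s.equivFin ⟨y, h⟩, by simp⟩⟩
    exact e ▸ this

theorem sets {X : Type} (hX : ℵ₁ < #X) (g : Finset X → Set X) (hg : ∀ s, (g s).Countable) :
    ∃ (Y Z : Set X) (y z : X), (∀ s : Finset X, ↑s ⊆ Y → g s ⊆ Y) ∧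
      (∀ s : Finset X, ↑s ⊆ Z → g s ⊆ Z) ∧ y ∈ Y ∧ y ∉ Z ∧ z ∈ Z ∧ z ∉ Y ∧ (Y ∩ Z).Infinite := by
  have : Nonempty X := mk_ne_zero_iff.1 (aleph_pos _ |>.trans hX).ne'
  obtain ⟨A, hA⟩ := le_mk_iff_exists_set.1 hX.le
  obtain ⟨Y, y1, y2, y3⟩ := clos g hg A
  obtain ⟨W, w1, w2⟩ := le_mk_iff_exists_subset.1 (aleph0_lt_aleph_one.le.trans_eq hA.symm)
  obtain ⟨z, hz⟩ : ∃ z, z ∉ Y := by
    by_contra! k
    rw [eq_univ_of_forall k, mk_univ, hA] at y2
    exact hX.not_ge (y2.trans (max_le aleph0_lt_aleph_one.le le_rfl))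
  obtain ⟨Z, z1, z2, z3⟩ := clos g hg (insert z W)
  obtain ⟨y, h1, h2⟩ : ∃ y ∈ A, y ∉ Z := by
    by_contra! k
    have := (mk_le_mk_of_subset k).trans (z2.trans (max_le le_rfl (mk_insert_le.trans_eq
      (by rw [w2]; simp))))
    exact aleph0_lt_aleph_one.not_ge (hA ▸ this)
  exact ⟨Y, Z, y, z, y3, z3, y1 h1, h2, z1 (mem_insert _ _), hz,
    (infinite_coe_iff.1 (infinite_iff.2 w2.ge)).mono
      fun x hx => ⟨y1 (w1 hx), z1 (mem_insert_of_mem _ hx)⟩⟩

structure DE {P B : Type*} [Preorder P] [BooleanAlgebra B] (i : P → B) : Prop where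
  mono : Monotone i
  nz : ∀ p, i p ≠ ⊥
  comp : ∀ p q, i p ⊓ i q ≠ ⊥ → ∃ r, r ≤ p ∧ r ≤ q
  dense : ∀ a, a ≠ ⊥ → ∃ p, i p ≤ a

theorem de_ro (P : Type*) [Preorder P] :
    DE fun p : P => Heyting.Regular.toRegular (LowerSet.Iic p) := by
  have h : ∀ a : LowerSet P, Heyting.Regular.toRegular a = ⊥ ↔ a = ⊥ := fun a => by
    rw [← le_bot_iff, Heyting.Regular.gi.gc.le_iff_le, Heyting.Regular.coe_bot, le_bot_iff]
  have h2 : ∀ a : LowerSet P, a ≠ ⊥ → ∃ p, p ∈ a := fun a k => by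
    by_contra! l
    exact k (SetLike.ext fun x => by simp [l x])
  refine ⟨fun p q k => OrderHom.mono _ (LowerSet.Iic_le.2 (LowerSet.mem_Iic_iff.2 k)),
    fun p k => ?_, fun p q k => ?_, fun a k => ?_⟩
  · have : p ∈ LowerSet.Iic p := by simp
    simp [(h _).1 k] at this
  · have : Heyting.Regular.toRegular (LowerSet.Iic p) ⊓ Heyting.Regular.toRegular (LowerSet.Iic q) =
        Heyting.Regular.toRegular (LowerSet.Iic p ⊓ LowerSet.Iic q) :=
      Heyting.Regular.coe_injective (by simp [compl_compl_inf_distrib])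
    simpa using h2 _ fun l => k (this.trans ((h _).2 l))
  · obtain ⟨p, hp⟩ := h2 a fun l => k (Heyting.Regular.coe_injective l)
    exact ⟨p, Heyting.Regular.gi.gc.le_iff_le.2 (LowerSet.Iic_le.2 hp)⟩

theorem DE.map {P B C : Type*} [Preorder P] [BooleanAlgebra B] [BooleanAlgebra C] {i : P → B}
    (h : DE i) (e : B ≃o C) : DE (e ∘ i) := by
  refine ⟨e.monotone.comp h.mono, fun p => by simpa using h.nz p,
    fun p q k => h.comp p q (by simpa [← map_inf] using k), fun a k => ?_⟩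
  obtain ⟨p, hp⟩ := h.dense (e.symm a) (by simpa using k)
  exact ⟨p, e.le_symm_apply.1 hp⟩

theorem DE.ext {P B : Type*} [Preorder P] [BooleanAlgebra B] {i : P → B} (h : DE i) {p q : P}
    (k : i p ≤ i q) : ∃ r, r ≤ p ∧ r ≤ q :=
  h.comp p q (by rw [inf_eq_left.2 k]; exact h.nz p)

theorem DE.sep {P B : Type*} [Preorder P] [BooleanAlgebra B] {i : P → B} (h : DE i) (p : P)
    (a : B) : ∃ q, q ≤ p ∧ (¬i p ≤ a → i q ⊓ a = ⊥) := by
  by_cases k : i p ≤ a
  · exact ⟨p, le_rfl, fun l => absurd k l⟩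
  obtain ⟨q, hq⟩ := h.dense (i p \ a) (by rwa [Ne, sdiff_eq_bot_iff])
  obtain ⟨r, h1, h2⟩ := h.ext (hq.trans sdiff_le)
  exact ⟨r, h2, fun _ => le_bot_iff.1 ((inf_le_inf_right _ ((h.mono h1).trans hq)).trans_eq
    inf_sdiff_self_left)⟩

end Pool.Agent.H.MP_01c350_lc
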